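import Pool.Agent.Helper28.ND.Spec2

/-!
# MP_0c2f33_an, part EXT: extension from the dimension two to all dimensions.
-/

namespace Pool.Agent.Helper21.ND.EXT
open MeasureTheory Set Filter Topology Pool.Agent.Helper28.ND
open scoped ENNReal NNReal

noncomputable section

/-- the first two coordinates -/
def pr (n : ℕ) : (Fin (2 + n) → ℝ) →L[ℝ] (Fin 2 → ℝ) :=
  ContinuousLinearMap.pi fun i => ContinuousLinearMap.proj (Fin.castAdd n i)
/-- the other coordinates -/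
def sc (n : ℕ) : (Fin (2 + n) → ℝ) →L[ℝ] (Fin n → ℝ) :=
  ContinuousLinearMap.pi fun i => ContinuousLinearMap.proj (Fin.natAdd 2 i)
def L1 (n : ℕ) : (Fin 2 → ℝ) →L[ℝ] (Fin (2 + n) → ℝ) :=
  ContinuousLinearMap.pi fun k =>
    Fin.addCases (fun i => ContinuousLinearMap.proj i) (fun _ => 0) k
def L2 (n : ℕ) : (Fin n → ℝ) →L[ℝ] (Fin (2 + n) → ℝ) :=
  ContinuousLinearMap.pi fun k =>
    Fin.addCases (fun _ => 0) (fun j => ContinuousLinearMap.proj j) k
/-- gluing -/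
def ap {n : ℕ} (y : Fin 2 → ℝ) (z : Fin n → ℝ) : Fin (2 + n) → ℝ := L1 n y + L2 n z

variable {n : ℕ}

@[simp] theorem pr_apply (x : Fin (2 + n) → ℝ) (i : Fin 2) : pr n x i = x (Fin.castAdd n i) := rfl
@[simp] theorem sc_apply (x : Fin (2 + n) → ℝ) (i : Fin n) : sc n x i = x (Fin.natAdd 2 i) := rfl
@[simp] theorem L1_left (y : Fin 2 → ℝ) (i : Fin 2) : L1 n y (Fin.castAdd n i) = y i := by
  simp [L1]
@[simp] theorem L1_right (y : Fin 2 → ℝ) (i : Fin n) : L1 n y (Fin.natAdd 2 i) = 0 := by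
  simp [L1]
@[simp] theorem L2_left (y : Fin n → ℝ) (i : Fin 2) : L2 n y (Fin.castAdd n i) = 0 := by
  simp [L2]
@[simp] theorem L2_right (y : Fin n → ℝ) (i : Fin n) : L2 n y (Fin.natAdd 2 i) = y i := by
  simp [L2]
@[simp] theorem ap_left (y : Fin 2 → ℝ) (z : Fin n → ℝ) (i : Fin 2) :
    ap y z (Fin.castAdd n i) = y i := by simp [ap]
@[simp] theorem ap_right (y : Fin 2 → ℝ) (z : Fin n → ℝ) (i : Fin n) :
    ap y z (Fin.natAdd 2 i) = z i := by simp [ap]
@[simp] theorem pr_ap (y : Fin 2 → ℝ) (z : Fin n → ℝ) : pr n (ap y z) = y := by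
  ext i; simp
@[simp] theorem sc_ap (y : Fin 2 → ℝ) (z : Fin n → ℝ) : sc n (ap y z) = z := by
  ext i; simp
@[simp] theorem ap_pr_sc (x : Fin (2 + n) → ℝ) : ap (pr n x) (sc n x) = x := by
  ext i
  refine Fin.addCases (fun i => ?_) (fun i => ?_) i <;> simp

theorem L1_single (i : Fin 2) : L1 n (Pi.single i 1) = Pi.single (Fin.castAdd n i) 1 := by
  ext k
  refine Fin.addCases (fun j => ?_) (fun j => ?_) k
  · rw [L1_left]
    by_cases h : j = i
    · subst h; simp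
    · rw [Pi.single_eq_of_ne h, Pi.single_eq_of_ne]
      exact fun h' => h (Fin.castAdd_injective _ _ h')
  · rw [L1_right, Pi.single_eq_of_ne]
    intro h
    have := congrArg Fin.val h
    simp at this
    omega

theorem L2_single (i : Fin n) : L2 n (Pi.single i 1) = Pi.single (Fin.natAdd 2 i) 1 := by
  ext k
  refine Fin.addCases (fun j => ?_) (fun j => ?_) k
  · rw [L2_left, Pi.single_eq_of_ne]
    intro h
    have := congrArg Fin.val h
    simp at this
    omega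
  · rw [L2_right]
    by_cases h : j = i
    · subst h; simp
    · rw [Pi.single_eq_of_ne h, Pi.single_eq_of_ne]
      exact fun h' => h (Fin.natAdd_injective _ _ h')

theorem pr_single (i : Fin 2) : pr n (Pi.single (Fin.castAdd n i) 1) = Pi.single i 1 := by
  rw [← L1_single]
  ext k
  simp

theorem norm_L1 (y : Fin 2 → ℝ) : ‖L1 n y‖ = ‖y‖ := by
  apply le_antisymm
  · rw [pi_norm_le_iff_of_nonneg (norm_nonneg y)]
    intro k
    refine Fin.addCases (fun j => ?_) (fun j => ?_) k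
    · rw [L1_left]; exact norm_le_pi_norm y j
    · rw [L1_right]; simp
  · rw [pi_norm_le_iff_of_nonneg (norm_nonneg _)]
    intro k
    rw [← L1_left (n := n) y k]
    exact norm_le_pi_norm _ _

/-! ## measures -/

/-- the normalised measure on the cube -/
abbrev m (d : ℕ) : Measure (Fin d → ℝ) := volume.restrict (Q d)

theorem m_eq (d : ℕ) : m d = Measure.pi fun _ : Fin d => volume.restrict (Ioc (0 : ℝ) 1) := by
  rw [m, Q, volume_pi, Measure.restrict_pi_pi]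

instance probI : IsProbabilityMeasure (volume.restrict (Ioc (0 : ℝ) 1)) := ⟨by simp⟩

instance probm (d : ℕ) : IsProbabilityMeasure (m d) := by
  rw [m_eq]; infer_instance

/-- gluing as a measurable equivalence -/
def em (n : ℕ) : (Fin 2 → ℝ) × (Fin n → ℝ) ≃ᵐ (Fin (2 + n) → ℝ) where
  toFun w := ap w.1 w.2
  invFun x := (pr n x, sc n x)
  left_inv w := by simp
  right_inv x := by simp
  measurable_toFun := by
    have : Continuous fun w : (Fin 2 → ℝ) × (Fin n → ℝ) => ap w.1 w.2 := by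
      unfold ap; fun_prop
    exact this.measurable
  measurable_invFun := by
    have : Continuous fun x : (Fin (2 + n) → ℝ) => (pr n x, sc n x) := by fun_prop
    exact this.measurable

theorem mp_em (n : ℕ) : MeasurePreserving (em n) ((m 2).prod (m n)) (m (2 + n)) := by
  refine ⟨(em n).measurable, ?_⟩
  rw [m_eq (2 + n)]
  symm
  apply Measure.pi_eq
  intro s hs
  rw [(em n).map_apply]
  have h : (em n) ⁻¹' (Set.pi univ s) =
      (Set.pi univ fun i => s (Fin.castAdd n i)) ×ˢ (Set.pi univ fun i => s (Fin.natAdd 2 i)) := by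
    ext w
    simp only [em, MeasurableEquiv.coe_mk, Equiv.coe_fn_mk, mem_preimage, Set.mem_pi, mem_univ,
      true_imp_iff, mem_prod]
    constructor
    · intro h
      exact ⟨fun i => by simpa using h (Fin.castAdd n i), fun i => by simpa using h (Fin.natAdd 2 i)⟩
    · rintro ⟨h1, h2⟩ k
      refine Fin.addCases (fun i => ?_) (fun i => ?_) k
      · simpa using h1 i
      · simpa using h2 i
  rw [h, Measure.prod_prod, m_eq, m_eq, Measure.pi_pi, Measure.pi_pi, Fin.prod_univ_add]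

theorem mp_pr (n : ℕ) : MeasurePreserving (pr n) (m (2 + n)) (m 2) := by
  refine ⟨(pr n).continuous.measurable, ?_⟩
  rw [← (mp_em n).map_eq, Measure.map_map (pr n).continuous.measurable (em n).measurable]
  have : (pr n) ∘ (em n) = Prod.fst := by
    ext w i
    simp [em]
  rw [this]
  exact (measurePreserving_fst).map_eq

/-! ## calculus -/

theorem pd_ap_left {g : (Fin (2 + n) → ℝ) → ℝ} (hg : Differentiable ℝ g) (i : Fin 2)
    (y : Fin 2 → ℝ) (z : Fin n → ℝ) :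
    pd i (fun y => g (ap y z)) y = pd (Fin.castAdd n i) g (ap y z) := by
  unfold pd
  have h1 : HasFDerivAt (fun y : Fin 2 → ℝ => ap y z) (L1 n) y := by
    unfold ap
    exact (L1 n).hasFDerivAt.add_const _
  have h2 := ((hg (ap y z)).hasFDerivAt).comp y h1
  have h3 : fderiv ℝ (fun y => g (ap y z)) y = (fderiv ℝ g (ap y z)).comp (L1 n) := h2.fderiv
  rw [h3, ContinuousLinearMap.comp_apply, L1_single]

theorem pd_ap_right {g : (Fin (2 + n) → ℝ) → ℝ} (hg : Differentiable ℝ g) (i : Fin n)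
    (y : Fin 2 → ℝ) (z : Fin n → ℝ) :
    pd i (fun z => g (ap y z)) z = pd (Fin.natAdd 2 i) g (ap y z) := by
  unfold pd
  have h1 : HasFDerivAt (fun z : Fin n → ℝ => ap y z) (L2 n) z := by
    unfold ap
    exact (L2 n).hasFDerivAt.const_add _
  have h2 := ((hg (ap y z)).hasFDerivAt).comp z h1
  have h3 : fderiv ℝ (fun z => g (ap y z)) z = (fderiv ℝ g (ap y z)).comp (L2 n) := h2.fderiv
  rw [h3, ContinuousLinearMap.comp_apply, L2_single]

theorem pd_pr {g : (Fin 2 → ℝ) → ℝ} (hg : Differentiable ℝ g) (i : Fin 2)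
    (x : Fin (2 + n) → ℝ) :
    pd (Fin.castAdd n i) (fun x => g (pr n x)) x = pd i g (pr n x) := by
  unfold pd
  have h2 := ((hg (pr n x)).hasFDerivAt).comp x (pr n).hasFDerivAt
  have h3 : fderiv ℝ (fun x => g (pr n x)) x = (fderiv ℝ g (pr n x)).comp (pr n) := h2.fderiv
  rw [h3, ContinuousLinearMap.comp_apply, pr_single]

section smooth
variable {d : ℕ} {f : ℝ → (Fin d → ℝ) → ℝ}

theorem smooth_slice (hf : ContDiff ℝ (⊤ : ℕ∞) (U f)) (t : ℝ) : ContDiff ℝ (⊤ : ℕ∞) (f t) :=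
  hf.comp (contDiff_prodMk_right t)

theorem pd_eq (hf : ContDiff ℝ (⊤ : ℕ∞) (U f)) (i : Fin d) (t : ℝ) (x : Fin d → ℝ) :
    pd i (f t) x = fderiv ℝ (U f) (t, x) (0, Pi.single i 1) := by
  have h1 : HasFDerivAt (U f) (fderiv ℝ (U f) (t, x)) (t, x) :=
    (hf.differentiable (by simp) (t, x)).hasFDerivAt
  have h2 := h1.comp x (hasFDerivAt_prodMk_right t x)
  have h3 : fderiv ℝ (f t) x = (fderiv ℝ (U f) (t, x)).comp (ContinuousLinearMap.inr ℝ ℝ _) :=
    h2.fderiv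
  unfold pd
  rw [h3]; rfl

theorem dt_eq (hf : ContDiff ℝ (⊤ : ℕ∞) (U f)) (t : ℝ) (x : Fin d → ℝ) :
    dt f t x = fderiv ℝ (U f) (t, x) (1, 0) := by
  have h1 : HasFDerivAt (U f) (fderiv ℝ (U f) (t, x)) (t, x) :=
    (hf.differentiable (by simp) (t, x)).hasFDerivAt
  have h2 := h1.comp_hasDerivAt t ((hasDerivAt_id t).prodMk (hasDerivAt_const t x))
  unfold dt
  exact h2.deriv

theorem smooth_dir (hf : ContDiff ℝ (⊤ : ℕ∞) (U f)) (v : ℝ × (Fin d → ℝ)) :
    ContDiff ℝ (⊤ : ℕ∞) (fun z => fderiv ℝ (U f) z v) :=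
  (hf.fderiv_right (m := (⊤ : ℕ∞)) (by simp)).clm_apply contDiff_const

theorem smooth_pd (hf : ContDiff ℝ (⊤ : ℕ∞) (U f)) (i : Fin d) :
    ContDiff ℝ (⊤ : ℕ∞) (U fun t => pd i (f t)) := by
  have : (U fun t => pd i (f t)) = fun z => fderiv ℝ (U f) z (0, Pi.single i 1) := by
    ext z
    exact pd_eq hf i z.1 z.2
  rw [this]; exact smooth_dir hf _

theorem smooth_dt (hf : ContDiff ℝ (⊤ : ℕ∞) (U f)) : ContDiff ℝ (⊤ : ℕ∞) (U (dt f)) := by
  have : (U (dt f)) = fun z => fderiv ℝ (U f) z (1, 0) := by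
    ext z
    exact dt_eq hf z.1 z.2
  rw [this]; exact smooth_dir hf _

theorem per_pd {g : (Fin d → ℝ) → ℝ} (hg : Per g) (i : Fin d) : Per (pd i g) := by
  intro x k
  unfold pd
  have h1 : (fun y : Fin d → ℝ => g (y + fun i => (k i : ℝ))) = g := by
    ext y; exact hg y k
  have h2 : fderiv ℝ (fun y : Fin d → ℝ => g (y + fun i => (k i : ℝ))) x =
      fderiv ℝ g (x + fun i => (k i : ℝ)) := fderiv_comp_add_right _
  rw [h1] at h2
  rw [h2]; rfl
end smooth

/-- restriction of a test function to a slice -/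
def fz (f : ℝ → (Fin (2 + n) → ℝ) → ℝ) (z : Fin n → ℝ) (t : ℝ) (y : Fin 2 → ℝ) : ℝ := f t (ap y z)

theorem ap_add (y : Fin 2 → ℝ) (z : Fin n → ℝ) (k : Fin 2 → ℤ) :
    ap (fun i => y i + (k i : ℝ)) z =
      fun i => ap y z i + ((Fin.addCases k (fun _ => 0) i : ℤ) : ℝ) := by
  ext i
  refine Fin.addCases (fun i => ?_) (fun i => ?_) i <;> simp

theorem ap_add' (y : Fin 2 → ℝ) (z : Fin n → ℝ) (k : Fin n → ℤ) :
    ap y (fun i => z i + (k i : ℝ)) =
      fun i => ap y z i + ((Fin.addCases (fun _ => 0) k i : ℤ) : ℝ) := by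
  ext i
  refine Fin.addCases (fun i => ?_) (fun i => ?_) i <;> simp

theorem sp_fz {f : ℝ → (Fin (2 + n) → ℝ) → ℝ} (hf : SmoothPer f) (z : Fin n → ℝ) :
    SmoothPer (fz f z) := by
  constructor
  · have : U (fz f z) = (U f) ∘ fun w : ℝ × (Fin 2 → ℝ) => (w.1, L1 n w.2 + L2 n z) := rfl
    rw [this]
    apply hf.smooth.comp
    fun_prop
  · intro t y k
    unfold fz
    rw [ap_add]
    exact hf.per t _ _

theorem sp_pr {f : ℝ → (Fin 2 → ℝ) → ℝ} (hf : SmoothPer f) :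
    SmoothPer (fun t (x : Fin (2 + n) → ℝ) => f t (pr n x)) := by
  constructor
  · have : U (fun t (x : Fin (2 + n) → ℝ) => f t (pr n x)) =
      (U f) ∘ fun w : ℝ × (Fin (2 + n) → ℝ) => (w.1, pr n w.2) := rfl
    rw [this]
    apply hf.smooth.comp
    fun_prop
  · intro t x k
    exact hf.per t (pr n x) (fun i => k (Fin.castAdd n i))

/-! ## Fubini -/

abbrev mT (T : ℝ) : Measure ℝ := volume.restrict (Ioo 0 T)

abbrev MM (T : ℝ) (n : ℕ) : Measure ((ℝ × (Fin 2 → ℝ)) × (Fin n → ℝ)) :=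
  ((mT T).prod (m 2)).prod (m n)

/-- `((t,y),z) ↦ (t, ap y z)` -/
def eT (n : ℕ) : (ℝ × (Fin 2 → ℝ)) × (Fin n → ℝ) ≃ᵐ ℝ × (Fin (2 + n) → ℝ) :=
  MeasurableEquiv.prodAssoc.trans (MeasurableEquiv.prodCongr (MeasurableEquiv.refl ℝ) (em n))

theorem eT_apply (a : (ℝ × (Fin 2 → ℝ)) × (Fin n → ℝ)) : eT n a = (a.1.1, ap a.1.2 a.2) := rfl

theorem mp_eT (T : ℝ) (n : ℕ) : MeasurePreserving (eT n) (MM T n) ((mT T).prod (m (2 + n))) := by
  have h1 : MeasurePreserving (MeasurableEquiv.prodAssoc : (ℝ × (Fin 2 → ℝ)) × (Fin n → ℝ) ≃ᵐ _)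
      (MM T n) ((mT T).prod ((m 2).prod (m n))) :=
    ⟨MeasurableEquiv.prodAssoc.measurable, Measure.prodAssoc_prod⟩
  have h2 := (MeasurePreserving.id (mT T)).prod (mp_em n)
  exact h2.comp h1

theorem ftoM {T : ℝ} {F : ℝ → (Fin (2 + n) → ℝ) → ℝ}
    (h : Integrable (fun a : (ℝ × (Fin 2 → ℝ)) × (Fin n → ℝ) => F a.1.1 (ap a.1.2 a.2)) (MM T n)) :
    ∫ t in Ioo 0 T, ∫ x in Q (2 + n), F t x
      = ∫ a, F a.1.1 (ap a.1.2 a.2) ∂(MM T n) := by
  have h1 : Integrable (fun w : ℝ × (Fin (2 + n) → ℝ) => F w.1 w.2) ((mT T).prod (m (2 + n))) := by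
    rw [← (mp_eT T n).integrable_comp_emb (eT n).measurableEmbedding]
    exact h
  rw [← integral_prod (fun w : ℝ × (Fin (2 + n) → ℝ) => F w.1 w.2) h1,
    ← (mp_eT T n).integral_comp (eT n).measurableEmbedding]
  rfl

theorem lftoM {T : ℝ} {F : ℝ → (Fin (2 + n) → ℝ) → ℝ≥0∞} (hF : Measurable (U F)) :
    ∫⁻ t in Ioo 0 T, ∫⁻ x in Q (2 + n), F t x
      = ∫⁻ t in Ioo 0 T, ∫⁻ y in Q 2, ∫⁻ z in Q n, F t (ap y z) := by
  have h1 : ∫⁻ t in Ioo 0 T, ∫⁻ x in Q (2 + n), F t x =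
      ∫⁻ w, F w.1 w.2 ∂((mT T).prod (m (2 + n))) :=
    (lintegral_prod (fun w : ℝ × (Fin (2 + n) → ℝ) => F w.1 w.2) hF.aemeasurable).symm
  have hF' : Measurable fun a : (ℝ × (Fin 2 → ℝ)) × (Fin n → ℝ) => F a.1.1 (ap a.1.2 a.2) :=
    hF.comp (eT n).measurable
  rw [h1, ← (mp_eT T n).lintegral_comp_emb (eT n).measurableEmbedding]
  change ∫⁻ a, F a.1.1 (ap a.1.2 a.2) ∂(MM T n) = _
  rw [lintegral_prod _ hF'.aemeasurable]
  rw [lintegral_prod _ (hF'.lintegral_prod_right').aemeasurable]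

theorem ae_mem (T : ℝ) (n : ℕ) : ∀ᵐ a ∂(MM T n),
    eT n a ∈ Icc (0 : ℝ) T ×ˢ Set.pi univ (fun _ : Fin (2 + n) => Icc (0 : ℝ) 1) := by
  have hQ : ∀ d, MeasurableSet (Q d) := fun d => MeasurableSet.univ_pi fun _ => measurableSet_Ioc
  rw [MM, Measure.prod_restrict, Measure.prod_restrict]
  apply ae_restrict_of_forall_mem ((measurableSet_Ioo.prod (hQ 2)).prod (hQ n))
  rintro a ⟨⟨h1, h2⟩, h3⟩
  refine ⟨⟨h1.1.le, h1.2.le⟩, fun k _ => ?_⟩
  rw [eT_apply]
  refine Fin.addCases (fun i => ?_) (fun i => ?_) k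
  · change ap a.1.2 a.2 (Fin.castAdd n i) ∈ Icc (0 : ℝ) 1
    rw [ap_left]
    exact ⟨(h2 i (mem_univ _)).1.le, (h2 i (mem_univ _)).2⟩
  · change ap a.1.2 a.2 (Fin.natAdd 2 i) ∈ Icc (0 : ℝ) 1
    rw [ap_right]
    exact ⟨(h3 i (mem_univ _)).1.le, (h3 i (mem_univ _)).2⟩

theorem bd_ae (T : ℝ) {φ : ℝ → (Fin (2 + n) → ℝ) → ℝ} (hφ : Continuous (U φ)) :
    ∃ C : ℝ, ∀ᵐ a ∂(MM T n), ‖φ a.1.1 (ap a.1.2 a.2)‖ ≤ C := by
  obtain ⟨C, hC⟩ := (isCompact_Icc.prod (isCompact_univ_pi fun _ => isCompact_Icc) :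
    IsCompact (Icc (0 : ℝ) T ×ˢ Set.pi univ
      (fun _ : Fin (2 + n) => Icc (0 : ℝ) 1))).exists_bound_of_continuousOn hφ.continuousOn
  exact ⟨C, (ae_mem T n).mono fun a ha => hC _ ha⟩

/-- product of an integrable function of `(t,y)` and a continuous function -/
theorem int_mul {T : ℝ} {g : ℝ → (Fin 2 → ℝ) → ℝ}
    (hg : Integrable (U g) ((mT T).prod (m 2)))
    {φ : ℝ → (Fin (2 + n) → ℝ) → ℝ} (hφ : Continuous (U φ)) :
    Integrable (fun a : (ℝ × (Fin 2 → ℝ)) × (Fin n → ℝ) =>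
      g a.1.1 a.1.2 * φ a.1.1 (ap a.1.2 a.2)) (MM T n) := by
  obtain ⟨C, hC⟩ := bd_ae T hφ
  refine (hg.comp_fst (m n)).mul_bdd (c := C) ?_ hC
  exact (hφ.measurable.comp (eT n).measurable).aestronglyMeasurable

/-! ## integrability -/

theorem enorm_pi_le {d : ℕ} (y : Fin d → ℝ) (i : Fin d) : ‖y i‖ₑ ≤ ‖y‖ₑ :=
  ENNReal.coe_le_coe.2 (nnnorm_le_pi_nnnorm y i)

theorem int_of {T : ℝ} {g : ℝ → (Fin 2 → ℝ) → ℝ} (hg : Measurable (U g)) {X : ℝ → ℝ≥0∞}
    (hX : ∫⁻ t in Ioo 0 T, X t ^ 2 < ⊤) (C : ℝ≥0)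
    (h : ∀ᵐ t ∂(mT T), ∫⁻ y in Q 2, ‖g t y‖ₑ ≤ C * X t) :
    Integrable (U g) ((mT T).prod (m 2)) := by
  refine ⟨hg.aestronglyMeasurable, ?_⟩
  have h1 : ∫⁻ w, ‖U g w‖ₑ ∂((mT T).prod (m 2)) = ∫⁻ t in Ioo 0 T, ∫⁻ y in Q 2, ‖g t y‖ₑ :=
    lintegral_prod _ hg.enorm.aemeasurable
  unfold HasFiniteIntegral
  rw [h1]
  have h2 : ∀ a : ℝ≥0∞, a ≤ 1 + a ^ 2 := by
    intro a
    rcases le_total a 1 with h | h
    · exact h.trans le_self_add
    · calc a = a * 1 := (mul_one a).symm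
        _ ≤ a * a := by gcongr
        _ = a ^ 2 := (sq a).symm
        _ ≤ 1 + a ^ 2 := le_add_self
  calc ∫⁻ t in Ioo 0 T, ∫⁻ y in Q 2, ‖g t y‖ₑ
      ≤ ∫⁻ t in Ioo 0 T, (C : ℝ≥0∞) * (1 + X t ^ 2) :=
        lintegral_mono_ae (h.mono fun t ht => ht.trans (by gcongr; exact h2 _))
    _ = (C : ℝ≥0∞) * ∫⁻ t in Ioo 0 T, (1 + X t ^ 2) :=
        lintegral_const_mul' _ _ ENNReal.coe_ne_top
    _ = (C : ℝ≥0∞) * ((∫⁻ t in Ioo 0 T, 1) + ∫⁻ t in Ioo 0 T, X t ^ 2) := by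
        rw [lintegral_add_left measurable_const]
    _ < ⊤ := by
        apply ENNReal.mul_lt_top ENNReal.coe_lt_top
        apply ENNReal.add_lt_top.2 ⟨?_, hX⟩
        simp

section
variable {T : ℝ} {p q : ℝ≥0∞} {b : ℝ → (Fin 2 → ℝ) → (Fin 2 → ℝ)} {u0 : (Fin 2 → ℝ) → ℝ}
  {u : ℝ → (Fin 2 → ℝ) → ℝ}

theorem one_norm {E : Type} [NormedAddCommGroup E] {g : (Fin 2 → ℝ) → E}
    (hg : AEStronglyMeasurable g (m 2)) (hp : 1 ≤ p) :
    ∫⁻ y in Q 2, ‖g y‖ₑ ≤ eLpNorm g p (m 2) := by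
  rw [← eLpNorm_one_eq_lintegral_enorm]
  exact eLpNorm_le_eLpNorm_of_exponent_le hp hg

theorem meas_slice {E : Type} [MeasurableSpace E] {g : ℝ → (Fin 2 → ℝ) → E}
    (hg : Measurable (U g)) (t : ℝ) : Measurable (g t) := hg.comp measurable_prodMk_left

theorem int_u (hq : 1 ≤ q) (hS : Sol 2 T q b u0 u) : Integrable (U u) ((mT T).prod (m 2)) := by
  obtain ⟨C, hC⟩ := hS.bound
  refine int_of hS.meas (X := fun _ => 1) (by simp) C (hC.mono fun t ht => ?_)
  rw [mul_one]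
  exact (one_norm (meas_slice hS.meas t).aestronglyMeasurable hq).trans ht

theorem int_b (hp : 1 ≤ p) (hD : Drift 2 T p b) (i : Fin 2) :
    Integrable (U fun t y => b t y i) ((mT T).prod (m 2)) := by
  refine int_of (measurable_pi_iff.1 hD.meas i) hD.norm 1 (Eventually.of_forall fun t => ?_)
  rw [ENNReal.coe_one, one_mul]
  refine le_trans (lintegral_mono fun y => ?_)
    (one_norm (meas_slice hD.meas t).aestronglyMeasurable hp)
  exact enorm_pi_le _ _

theorem int_ub (hpq : p⁻¹ + q⁻¹ ≤ 1) (hD : Drift 2 T p b)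
    (hS : Sol 2 T q b u0 u) (i : Fin 2) :
    Integrable (U fun t y => u t y * b t y i) ((mT T).prod (m 2)) := by
  obtain ⟨C, hC⟩ := hS.bound
  refine int_of (hS.meas.mul (measurable_pi_iff.1 hD.meas i)) hD.norm C (hC.mono fun t ht => ?_)
  have hu := (meas_slice hS.meas t).aestronglyMeasurable (μ := m 2)
  have hb := (meas_slice hD.meas t).aestronglyMeasurable (μ := m 2)
  have : ENNReal.HolderTriple q p (q⁻¹ + p⁻¹)⁻¹ := ⟨by rw [inv_inv]⟩
  have h1 : 1 ≤ (q⁻¹ + p⁻¹)⁻¹ := by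
    rw [ENNReal.one_le_inv, add_comm]; exact hpq
  calc ∫⁻ y in Q 2, ‖u t y * b t y i‖ₑ ≤ ∫⁻ y in Q 2, ‖(u t • b t) y‖ₑ := by
        apply lintegral_mono
        intro y
        exact enorm_pi_le ((u t • b t) y) i
    _ ≤ eLpNorm (u t • b t) (q⁻¹ + p⁻¹)⁻¹ (m 2) := one_norm (hu.smul hb) h1
    _ ≤ eLpNorm (u t) q (m 2) * eLpNorm (b t) p (m 2) := eLpNorm_smul_le_mul_eLpNorm hb hu
    _ ≤ _ := by gcongr
end

/-! ## the equations -/

theorem test_fz {T : ℝ} {f : ℝ → (Fin (2 + n) → ℝ) → ℝ} (hf : IsTest T f) (z : Fin n → ℝ) :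
    IsTest T (fz f z) := by
  obtain ⟨h1, S, hS, h2⟩ := hf
  exact ⟨sp_fz h1 z, S, hS, fun t ht y => h2 t ht _⟩

theorem test0_fz {T : ℝ} {f : ℝ → (Fin (2 + n) → ℝ) → ℝ} (hf : IsTest0 T f) (z : Fin n → ℝ) :
    IsTest0 T (fz f z) := by
  obtain ⟨h1, S, hS, h2⟩ := hf
  exact ⟨sp_fz h1 z, S, hS, fun t ht y => h2 t ht _⟩

theorem test0_pr {T : ℝ} {f : ℝ → (Fin 2 → ℝ) → ℝ} (hf : IsTest0 T f) :
    IsTest0 T (fun t (x : Fin (2 + n) → ℝ) => f t (pr n x)) := by
  obtain ⟨h1, S, hS, h2⟩ := hf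
  exact ⟨sp_pr h1, S, hS, fun t ht y => h2 t ht _⟩

section
variable {f : ℝ → (Fin (2 + n) → ℝ) → ℝ}

theorem pd_fz (hf : SmoothPer f) (i : Fin 2) (z : Fin n → ℝ) (t : ℝ) (y : Fin 2 → ℝ) :
    pd i (fz f z t) y = pd (Fin.castAdd n i) (f t) (ap y z) :=
  pd_ap_left ((smooth_slice hf.smooth t).differentiable (by simp)) i y z

theorem pdd_fz (hf : SmoothPer f) (i : Fin 2) (z : Fin n → ℝ) (t : ℝ) (y : Fin 2 → ℝ) :
    pd i (pd i (fz f z t)) y =
      pd (Fin.castAdd n i) (pd (Fin.castAdd n i) (f t)) (ap y z) := by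
  have h1 : pd i (fz f z t) = fun y => pd (Fin.castAdd n i) (f t) (ap y z) := by
    ext y; exact pd_fz hf i z t y
  rw [h1]
  exact pd_ap_left ((smooth_slice (smooth_pd hf.smooth _) t).differentiable (by simp)) i y z

theorem dt_fz (z : Fin n → ℝ) (t : ℝ) (y : Fin 2 → ℝ) :
    dt (fz f z) t y = dt f t (ap y z) := rfl

/-- the additional second derivatives integrate to zero -/
theorem int_pdd (hI : S_IBP) (hf : SmoothPer f) (j : Fin n) (t : ℝ) (y : Fin 2 → ℝ) :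
    ∫ z in Q n, pd (Fin.natAdd 2 j) (pd (Fin.natAdd 2 j) (f t)) (ap y z) = 0 := by
  have hs := smooth_slice (smooth_pd hf.smooth (Fin.natAdd 2 j)) t
  have h1 : ∀ z : Fin n → ℝ, pd (Fin.natAdd 2 j) (pd (Fin.natAdd 2 j) (f t)) (ap y z) =
      pd j (fun z => pd (Fin.natAdd 2 j) (f t) (ap y z)) z := fun z =>
    (pd_ap_right (hs.differentiable (by simp)) j y z).symm
  simp_rw [h1]
  apply hI
  · have h2 : ContDiff ℝ 1 (pd (Fin.natAdd 2 j) (f t)) := hs.of_le (by simp)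
    apply h2.comp
    unfold ap
    fun_prop
  · intro z k
    change pd (Fin.natAdd 2 j) (f t) (ap y (fun i => z i + (k i : ℝ))) = _
    rw [ap_add']
    exact per_pd (hf.per t) _ _ _

theorem div_ext {T : ℝ} {p : ℝ≥0∞} {b : ℝ → (Fin 2 → ℝ) → (Fin 2 → ℝ)} (hp : 1 ≤ p)
    (hD : Drift 2 T p b) (hf : IsTest0 T f) :
    ∫ t in Ioo 0 T, ∫ x in Q (2 + n), ∑ k, (L1 n (b t (pr n x))) k * pd k (f t) x = 0 := by
  have hpt : ∀ t (x : Fin (2 + n) → ℝ), ∑ k, (L1 n (b t (pr n x))) k * pd k (f t) x =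
      ∑ i : Fin 2, b t (pr n x) i * pd (Fin.castAdd n i) (f t) x := by
    intro t x
    rw [Fin.sum_univ_add]
    simp
  simp_rw [hpt]
  have hint : Integrable (fun a : (ℝ × (Fin 2 → ℝ)) × (Fin n → ℝ) =>
      ∑ i : Fin 2, b a.1.1 a.1.2 i * pd (Fin.castAdd n i) (f a.1.1) (ap a.1.2 a.2)) (MM T n) :=
    integrable_finsetSum _ fun i _ =>
      int_mul (int_b hp hD i) (smooth_pd hf.1.smooth (Fin.castAdd n i)).continuous
  rw [ftoM (F := fun t x => ∑ i : Fin 2, b t (pr n x) i * pd (Fin.castAdd n i) (f t) x)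
    (by simpa only [pr_ap] using hint)]
  simp_rw [pr_ap]
  rw [integral_prod_symm _ hint]
  refine (integral_congr_ae ?_).trans (integral_zero _ _)
  filter_upwards [hint.prod_left_ae] with z hz
  rw [integral_prod _ hz]
  have h2 := hD.div (fz f z) (test0_fz hf z)
  simp_rw [pd_fz hf.1] at h2
  exact h2

theorem eqn_ext (hI : S_IBP) {T : ℝ} {p q : ℝ≥0∞} {b : ℝ → (Fin 2 → ℝ) → (Fin 2 → ℝ)}
    {u0 : (Fin 2 → ℝ) → ℝ} {u : ℝ → (Fin 2 → ℝ) → ℝ} (hq : 1 ≤ q)
    (hpq : p⁻¹ + q⁻¹ ≤ 1) (hD : Drift 2 T p b) (hS : Sol 2 T q b u0 u) (hf : IsTest T f) :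
    (∫ t in Ioo 0 T, ∫ x in Q (2 + n), u t (pr n x) * (dt f t x
      + (∑ k, (L1 n (b t (pr n x))) k * pd k (f t) x) + lap (f t) x))
      + ∫ x in Q (2 + n), u0 (pr n x) * f 0 x = 0 := by
  -- the two parts of the integrand
  let H : (ℝ × (Fin 2 → ℝ)) × (Fin n → ℝ) → ℝ := fun a =>
    u a.1.1 a.1.2 * dt f a.1.1 (ap a.1.2 a.2)
      + (∑ i : Fin 2, (u a.1.1 a.1.2 * b a.1.1 a.1.2 i) *
          pd (Fin.castAdd n i) (f a.1.1) (ap a.1.2 a.2))
      + ∑ i : Fin 2, u a.1.1 a.1.2 *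
          pd (Fin.castAdd n i) (pd (Fin.castAdd n i) (f a.1.1)) (ap a.1.2 a.2)
  let K : (ℝ × (Fin 2 → ℝ)) × (Fin n → ℝ) → ℝ := fun a =>
    ∑ j : Fin n, u a.1.1 a.1.2 *
      pd (Fin.natAdd 2 j) (pd (Fin.natAdd 2 j) (f a.1.1)) (ap a.1.2 a.2)
  have hsm := hf.1.smooth
  have hu := int_u (T := T) hq hS
  have hH : Integrable H (MM T n) := by
    refine ((int_mul hu (smooth_dt hsm).continuous).add (integrable_finsetSum _ fun i _ =>
      int_mul (int_ub hpq hD hS i) (smooth_pd hsm (Fin.castAdd n i)).continuous)).add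
      (integrable_finsetSum _ fun i _ => int_mul hu
        (smooth_pd (smooth_pd hsm (Fin.castAdd n i)) (Fin.castAdd n i)).continuous)
  have hKj : ∀ j : Fin n, Integrable (fun a : (ℝ × (Fin 2 → ℝ)) × (Fin n → ℝ) =>
      u a.1.1 a.1.2 * pd (Fin.natAdd 2 j) (pd (Fin.natAdd 2 j) (f a.1.1)) (ap a.1.2 a.2))
      (MM T n) := fun j => int_mul hu
        (smooth_pd (smooth_pd hsm (Fin.natAdd 2 j)) (Fin.natAdd 2 j)).continuous
  have hK : Integrable K (MM T n) := integrable_finsetSum _ fun j _ => hKj j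
  have hK0 : ∫ a, K a ∂(MM T n) = 0 := by
    rw [integral_finsetSum _ fun j _ => hKj j]
    apply Finset.sum_eq_zero
    intro j _
    rw [integral_prod _ (hKj j)]
    refine (integral_congr_ae (Eventually.of_forall fun w => ?_)).trans (integral_zero _ _)
    change ∫ z in Q n, u w.1 w.2 * _ = 0
    rw [integral_const_mul, int_pdd hI hf.1 j w.1 w.2, mul_zero]
  -- pointwise
  have hpt : ∀ a : (ℝ × (Fin 2 → ℝ)) × (Fin n → ℝ),
      u a.1.1 (pr n (ap a.1.2 a.2)) * (dt f a.1.1 (ap a.1.2 a.2)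
      + (∑ k, (L1 n (b a.1.1 (pr n (ap a.1.2 a.2)))) k * pd k (f a.1.1) (ap a.1.2 a.2))
      + lap (f a.1.1) (ap a.1.2 a.2)) = H a + K a := by
    intro a
    simp only [H, K, lap, Fin.sum_univ_add, pr_ap, L1_left, L1_right, zero_mul,
      Finset.sum_const_zero, add_zero, mul_add, Finset.mul_sum]
    simp only [mul_assoc]
    ring
  have h1 : (∫ t in Ioo 0 T, ∫ x in Q (2 + n), u t (pr n x) * (dt f t x
      + (∑ k, (L1 n (b t (pr n x))) k * pd k (f t) x) + lap (f t) x)) =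
      ∫ a, H a ∂(MM T n) := by
    rw [ftoM (F := fun t x => u t (pr n x) * (dt f t x
      + (∑ k, (L1 n (b t (pr n x))) k * pd k (f t) x) + lap (f t) x))]
    · rw [integral_congr_ae (Eventually.of_forall hpt), integral_add hH hK, hK0, add_zero]
    · exact (hH.add hK).congr (Eventually.of_forall fun a => (hpt a).symm)
  have hi0 : Integrable (fun w : (Fin 2 → ℝ) × (Fin n → ℝ) => u0 w.1 * f 0 (ap w.1 w.2))
      ((m 2).prod (m n)) := by
    have h3 : Integrable u0 (m 2) := by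
      have h4 : MemLp u0 q (m 2) := ⟨hS.meas0.aestronglyMeasurable, hS.bound0⟩
      exact h4.integrable hq
    obtain ⟨C, hC⟩ := (isCompact_univ_pi fun _ : Fin (2 + n) =>
      (isCompact_Icc : IsCompact (Icc (0 : ℝ) 1))).exists_bound_of_continuousOn
        (smooth_slice hsm 0).continuous.continuousOn
    refine (h3.comp_fst (m n)).mul_bdd (c := C) ?_ ?_
    · exact ((smooth_slice hsm 0).continuous.measurable.comp
        (em n).measurable).aestronglyMeasurable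
    · have hQ : ∀ d, MeasurableSet (Q d) := fun d =>
        MeasurableSet.univ_pi fun _ => measurableSet_Ioc
      rw [Measure.prod_restrict]
      apply ae_restrict_of_forall_mem ((hQ 2).prod (hQ n))
      rintro w ⟨h1, h2⟩
      apply hC
      intro k _
      refine Fin.addCases (fun i => ?_) (fun i => ?_) k
      · change ap w.1 w.2 (Fin.castAdd n i) ∈ Icc (0 : ℝ) 1
        rw [ap_left]
        exact ⟨(h1 i (mem_univ _)).1.le, (h1 i (mem_univ _)).2⟩
      · change ap w.1 w.2 (Fin.natAdd 2 i) ∈ Icc (0 : ℝ) 1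
        rw [ap_right]
        exact ⟨(h2 i (mem_univ _)).1.le, (h2 i (mem_univ _)).2⟩
  have h2 : ∫ x in Q (2 + n), u0 (pr n x) * f 0 x =
      ∫ z in Q n, ∫ y in Q 2, u0 y * f 0 (ap y z) := by
    rw [← (mp_em n).integral_comp (em n).measurableEmbedding]
    change ∫ w, u0 (pr n (ap w.1 w.2)) * f 0 (ap w.1 w.2) ∂((m 2).prod (m n)) = _
    simp_rw [pr_ap]
    rw [integral_prod_symm _ hi0]
  have h3 : ∫ a, H a ∂(MM T n) = ∫ z in Q n, - ∫ y in Q 2, u0 y * f 0 (ap y z) := by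
    rw [integral_prod_symm _ hH]
    apply integral_congr_ae
    filter_upwards [hH.prod_left_ae] with z hz
    rw [integral_prod _ hz]
    have h4 := hS.eqn (fz f z) (test_fz hf z)
    have h5 : ∀ t y, u t y * (dt (fz f z) t y + (∑ i, b t y i * pd i (fz f z t) y)
      + lap (fz f z t) y) = H ((t, y), z) := by
      intro t y
      simp only [H, lap, pd_fz hf.1, pdd_fz hf.1, dt_fz, mul_add, Finset.mul_sum, mul_assoc]
    simp_rw [h5] at h4
    exact eq_neg_of_add_eq_zero_left h4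
  rw [h1, h2, h3, integral_neg, neg_add_cancel]
end

/-! ## parabolicity -/

theorem sq_int_le (g : (Fin n → ℝ) → ℝ) (hg : Measurable g) :
    ENNReal.ofReal ((∫ z in Q n, g z) ^ 2) ≤ ∫⁻ z in Q n, ENNReal.ofReal ((g z) ^ 2) := by
  have h0 : ∀ a : ℝ, ENNReal.ofReal (a ^ 2) = ‖a‖ₑ ^ 2 := by
    intro a
    rw [← sq_abs, ENNReal.ofReal_pow (abs_nonneg a), Real.enorm_eq_ofReal_abs]
  simp_rw [h0]
  have h1 : ‖∫ z in Q n, g z‖ₑ ≤ eLpNorm g 2 (m n) := by
    refine (enorm_integral_le_lintegral_enorm _).trans ?_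
    rw [← eLpNorm_one_eq_lintegral_enorm]
    exact eLpNorm_le_eLpNorm_of_exponent_le (by norm_num) hg.aestronglyMeasurable
  have h2 : eLpNorm g 2 (m n) ^ 2 = ∫⁻ z in Q n, ‖g z‖ₑ ^ 2 := by
    rw [eLpNorm_eq_lintegral_rpow_enorm_toReal (by norm_num) (by norm_num)]
    rw [← ENNReal.rpow_natCast, ← ENNReal.rpow_mul]
    norm_num
  rw [← h2]
  gcongr

set_option maxHeartbeats 1000000 in
theorem par_of {T : ℝ} {u : ℝ → (Fin 2 → ℝ) → ℝ} (hu : Measurable (U u))
    (hiu : Integrable (U u) ((mT T).prod (m 2)))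
    (h : Parabolic (2 + n) T (fun t x => u t (pr n x))) : Parabolic 2 T u := by
  obtain ⟨h1, G, hG, hG2, hGf⟩ := h
  constructor
  · rw [lftoM (F := fun t x => ENNReal.ofReal ((u t (pr n x)) ^ 2))] at h1
    · simp_rw [pr_ap] at h1
      simpa using h1
    · have : Measurable fun w : ℝ × (Fin (2 + n) → ℝ) => U u (w.1, pr n w.2) :=
        hu.comp (measurable_fst.prodMk ((pr n).continuous.measurable.comp measurable_snd))
      exact (this.pow_const 2).ennreal_ofReal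
  -- the gradient
  have hGm : ∀ k : Fin (2 + n), Measurable (U fun t x => G t x k) := measurable_pi_iff.1 hG
  have hGa : ∀ k : Fin (2 + n), Measurable fun a : (ℝ × (Fin 2 → ℝ)) × (Fin n → ℝ) =>
      G a.1.1 (ap a.1.2 a.2) k := fun k => (hGm k).comp (eT n).measurable
  have hG2' := hG2
  have hsum : Measurable (U fun t x => ENNReal.ofReal (∑ k, (G t x k) ^ 2)) :=
    (Finset.measurable_sum _ fun k _ => (hGm k).pow_const 2).ennreal_ofReal
  rw [lftoM hsum] at hG2'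
  have hi : ∀ k : Fin (2 + n), Integrable (fun a : (ℝ × (Fin 2 → ℝ)) × (Fin n → ℝ) =>
      G a.1.1 (ap a.1.2 a.2) k) (MM T n) := by
    intro k
    have h3 : MemLp (fun a : (ℝ × (Fin 2 → ℝ)) × (Fin n → ℝ) => G a.1.1 (ap a.1.2 a.2) k) 2
        (MM T n) := by
      refine ⟨(hGa k).aestronglyMeasurable, ?_⟩
      rw [eLpNorm_lt_top_iff_lintegral_rpow_enorm_lt_top (by norm_num) (by norm_num)]
      refine lt_of_le_of_lt ?_ hG2'
      have hs : Measurable fun a : (ℝ × (Fin 2 → ℝ)) × (Fin n → ℝ) =>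
          ENNReal.ofReal (∑ k, (G a.1.1 (ap a.1.2 a.2) k) ^ 2) := hsum.comp (eT n).measurable
      have h4 : ∫⁻ t in Ioo 0 T, ∫⁻ y in Q 2, ∫⁻ z in Q n,
          ENNReal.ofReal (∑ k, (G t (ap y z) k) ^ 2) = ∫⁻ a, ENNReal.ofReal
            (∑ k, (G a.1.1 (ap a.1.2 a.2) k) ^ 2) ∂(MM T n) := by
        rw [lintegral_prod _ hs.aemeasurable]
        rw [lintegral_prod _ (hs.lintegral_prod_right').aemeasurable]
      rw [h4]
      apply lintegral_mono
      intro a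
      have h5 : ‖G a.1.1 (ap a.1.2 a.2) k‖ₑ ^ (2 : ℝ≥0∞).toReal =
          ENNReal.ofReal ((G a.1.1 (ap a.1.2 a.2) k) ^ 2) := by
        rw [← sq_abs, ENNReal.ofReal_pow (abs_nonneg _), Real.enorm_eq_ofReal_abs]
        norm_num
      change ‖G a.1.1 (ap a.1.2 a.2) k‖ₑ ^ (2 : ℝ≥0∞).toReal ≤ _
      rw [h5]
      apply ENNReal.ofReal_le_ofReal
      exact Finset.single_le_sum (f := fun k => (G a.1.1 (ap a.1.2 a.2) k) ^ 2)
        (fun k _ => sq_nonneg _) (Finset.mem_univ k)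
    have : IsFiniteMeasure (mT T) := ⟨by simp⟩
    exact h3.integrable (by norm_num)
  refine ⟨fun t y i => ∫ z in Q n, G t (ap y z) (Fin.castAdd n i), ?_, ?_, ?_⟩
  · rw [measurable_pi_iff]
    intro i
    have h3 := (hGa (Fin.castAdd n i)).stronglyMeasurable.integral_prod_right' (ν := m n)
    exact h3.measurable
  · refine lt_of_le_of_lt ?_ hG2'
    apply lintegral_mono
    intro t
    apply lintegral_mono
    intro y
    have hGs : ∀ k : Fin (2 + n), Measurable fun z : Fin n → ℝ => G t (ap y z) k := fun k =>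
      (hGa k).comp (measurable_prodMk_left (x := ((t, y) : ℝ × (Fin 2 → ℝ))))
    calc ENNReal.ofReal (∑ i : Fin 2, (∫ z in Q n, G t (ap y z) (Fin.castAdd n i)) ^ 2)
        = ∑ i : Fin 2, ENNReal.ofReal ((∫ z in Q n, G t (ap y z) (Fin.castAdd n i)) ^ 2) :=
          ENNReal.ofReal_sum_of_nonneg fun i _ => sq_nonneg _
      _ ≤ ∑ i : Fin 2, ∫⁻ z in Q n, ENNReal.ofReal ((G t (ap y z) (Fin.castAdd n i)) ^ 2) :=
          Finset.sum_le_sum fun i _ => sq_int_le _ (hGs _)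
      _ = ∫⁻ z in Q n, ∑ i : Fin 2, ENNReal.ofReal ((G t (ap y z) (Fin.castAdd n i)) ^ 2) :=
          (lintegral_finsetSum _ fun i _ => ((hGs _).pow_const 2).ennreal_ofReal).symm
      _ ≤ _ := by
          apply lintegral_mono
          intro z
          beta_reduce
          rw [← ENNReal.ofReal_sum_of_nonneg fun i _ => sq_nonneg _]
          apply ENNReal.ofReal_le_ofReal
          rw [Fin.sum_univ_add]
          exact le_add_of_nonneg_right (Finset.sum_nonneg fun i _ => sq_nonneg _)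
  · intro i f hf
    have h3 := hGf (Fin.castAdd n i) _ (test0_pr (n := n) hf)
    have hfs := hf.1.smooth
    have hfd : ∀ t, Differentiable ℝ (f t) := fun t =>
      (smooth_slice hfs t).differentiable (by simp)
    -- left hand side
    have hl : Integrable (fun a : (ℝ × (Fin 2 → ℝ)) × (Fin n → ℝ) =>
        u a.1.1 a.1.2 * pd i (f a.1.1) a.1.2) (MM T n) := by
      have h4 := int_mul (n := n) hiu (φ := fun t x => pd i (f t) (pr n x)) ?_
      · simpa only [pr_ap] using h4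
      · exact (smooth_pd hfs i).continuous.comp
          (continuous_fst.prodMk ((pr n).continuous.comp continuous_snd))
    have hl1 : ∫ t in Ioo 0 T, ∫ x in Q (2 + n), u t (pr n x) *
        pd (Fin.castAdd n i) (fun x => f t (pr n x)) x =
        ∫ t in Ioo 0 T, ∫ y in Q 2, u t y * pd i (f t) y := by
      simp_rw [pd_pr (hfd _) i]
      rw [ftoM (F := fun t x => u t (pr n x) * pd i (f t) (pr n x))
        (by simpa only [pr_ap] using hl)]
      simp_rw [pr_ap]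
      rw [integral_prod _ hl]
      have h5 : Integrable (fun w : ℝ × (Fin 2 → ℝ) => u w.1 w.2 * pd i (f w.1) w.2)
          ((mT T).prod (m 2)) := by
        have h6 := hl.integral_prod_left
        simpa using h6
      have h7 : ∫ w, (∫ _z in Q n, u w.1 w.2 * pd i (f w.1) w.2) ∂((mT T).prod (m 2)) =
          ∫ w, u w.1 w.2 * pd i (f w.1) w.2 ∂((mT T).prod (m 2)) := by simp
      rw [h7, integral_prod _ h5]
    -- right hand side
    have hr : Integrable (fun a : (ℝ × (Fin 2 → ℝ)) × (Fin n → ℝ) =>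
        G a.1.1 (ap a.1.2 a.2) (Fin.castAdd n i) * f a.1.1 a.1.2) (MM T n) := by
      have hc : Continuous (U fun t (x : Fin (2 + n) → ℝ) => f t (pr n x)) :=
        hfs.continuous.comp
          (continuous_fst.prodMk ((pr n).continuous.comp continuous_snd))
      obtain ⟨C, hC⟩ := bd_ae T hc
      simp_rw [pr_ap] at hC
      refine (hi _).mul_bdd (c := C) ?_ hC
      exact (hfs.continuous.measurable.comp measurable_fst).aestronglyMeasurable
    have hr1 : ∫ t in Ioo 0 T, ∫ x in Q (2 + n), G t x (Fin.castAdd n i) * f t (pr n x) =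
        ∫ t in Ioo 0 T, ∫ y in Q 2, (∫ z in Q n, G t (ap y z) (Fin.castAdd n i)) * f t y := by
      rw [ftoM (F := fun t x => G t x (Fin.castAdd n i) * f t (pr n x))
        (by simpa only [pr_ap] using hr)]
      simp_rw [pr_ap]
      rw [integral_prod _ hr]
      have h6 := hr.integral_prod_left
      simp_rw [integral_mul_const] at h6 ⊢
      rw [integral_prod _ h6]
    rw [hl1, hr1] at h3
    exact h3

theorem main (hI : S_IBP) : S_EXT := by
  intro T p q hT hp hq hpq b u0 u hD hS hN d hd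
  obtain ⟨n, rfl⟩ := Nat.exists_eq_add_of_le hd
  have hprm : Measurable fun w : ℝ × (Fin (2 + n) → ℝ) => (w.1, pr n w.2) :=
    measurable_fst.prodMk ((pr n).continuous.measurable.comp measurable_snd)
  have hper : ∀ (x : Fin (2 + n) → ℝ) (k : Fin (2 + n) → ℤ),
      pr n (fun i => x i + (k i : ℝ)) = fun i => pr n x i + (k (Fin.castAdd n i) : ℝ) :=
    fun x k => rfl
  refine ⟨fun t x => L1 n (b t (pr n x)), fun x => u0 (pr n x), fun t x => u t (pr n x),
    ?_, ?_, ?_⟩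
  · refine ⟨?_, ?_, ?_, ?_⟩
    · exact (L1 n).continuous.measurable.comp (hD.meas.comp hprm)
    · intro t x k
      simp only [hper]
      rw [hD.per t (pr n x) fun i => k (Fin.castAdd n i)]
    · have h1 : ∀ t, eLpNorm (fun x => L1 n (b t (pr n x))) p (m (2 + n)) =
          eLpNorm (b t) p (m 2) := by
        intro t
        rw [← eLpNorm_comp_measurePreserving (meas_slice hD.meas t).aestronglyMeasurable
          (mp_pr n)]
        exact eLpNorm_congr_norm_ae (Eventually.of_forall fun x => norm_L1 _)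
      simp_rw [h1]
      exact hD.norm
    · intro f hf
      exact div_ext hp hD hf
  · refine ⟨?_, ?_, ?_, ?_, ?_, ?_, ?_⟩
    · exact hS.meas.comp hprm
    · intro t x k
      simp only [hper]
      exact hS.per t (pr n x) fun i => k (Fin.castAdd n i)
    · obtain ⟨C, hC⟩ := hS.bound
      refine ⟨C, hC.mono fun t ht => ?_⟩
      have h1 : eLpNorm (fun x => u t (pr n x)) q (m (2 + n)) = eLpNorm (u t) q (m 2) :=
        eLpNorm_comp_measurePreserving (meas_slice hS.meas t).aestronglyMeasurable (mp_pr n)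
      rw [h1]
      exact ht
    · exact hS.meas0.comp (pr n).continuous.measurable
    · intro x k
      simp only [hper]
      exact hS.per0 (pr n x) fun i => k (Fin.castAdd n i)
    · have h1 : eLpNorm (fun x => u0 (pr n x)) q (m (2 + n)) = eLpNorm u0 q (m 2) :=
        eLpNorm_comp_measurePreserving hS.meas0.aestronglyMeasurable (mp_pr n)
      rw [h1]
      exact hS.bound0
    · intro f hf
      exact eqn_ext hI hq hpq hD hS hf
  · intro h
    exact hN (par_of hS.meas (int_u hq hS) h)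

end

end Pool.Agent.Helper21.ND.EXT
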